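import Pool.Agent.W470.Sen.Defs

set_option autoImplicit false

/-!
# SEN-CONJ: the conjugate point lemma (subtask 1074 of the project on MP_f0bc87_an)

Elementary calculus: Pade bounds for the exponential function and monotonicity of
`F(s) = (1-s)^n + n s - (1 + xs(s))^n + n xs(s)`, `xs(s) = 3 s / (3 + (n-1) s)`.
-/

namespace Pool.Agent.W762.Sen.Conj

lemma nonneg_of_deriv {f f' : ℝ → ℝ} {b : ℝ} (hb : 0 ≤ b) (h0 : f 0 = 0)
    (hd : ∀ x ∈ Set.Icc 0 b, HasDerivAt f (f' x) x) (hp : ∀ x ∈ Set.Icc 0 b, 0 ≤ f' x) :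
    0 ≤ f b := by
  have hm : MonotoneOn f (Set.Icc 0 b) := by
    apply monotoneOn_of_hasDerivWithinAt_nonneg (f' := f') (convex_Icc 0 b)
    · intro x hx
      exact (hd x hx).continuousAt.continuousWithinAt
    · intro x hx
      exact (hd x (interior_subset hx)).hasDerivWithinAt
    · intro x hx
      exact hp x (interior_subset hx)
  have := hm (Set.left_mem_Icc.2 hb) (Set.right_mem_Icc.2 hb) hb
  linarith

/-- Pade bound (a) -/
lemma exp_neg_le {y : ℝ} (hy : 0 ≤ y) :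
    Real.exp (-y) ≤ (12 - 6 * y + y ^ 2) / (12 + 6 * y + y ^ 2) := by
  have key : 0 ≤ Real.log (12 - 6 * y + y ^ 2) - Real.log (12 + 6 * y + y ^ 2) + y := by
    refine nonneg_of_deriv (f := fun y => Real.log (12 - 6 * y + y ^ 2)
      - Real.log (12 + 6 * y + y ^ 2) + y)
      (f' := fun y => (-6 + 2 * y) / (12 - 6 * y + y ^ 2) - (6 + 2 * y) / (12 + 6 * y + y ^ 2) + 1)
      hy (by norm_num) ?_ ?_
    · intro x hx
      have hx0 : 0 ≤ x := hx.1
      have h1 : (12 - 6 * x + x ^ 2) ≠ 0 := by nlinarith [sq_nonneg (x - 3)]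
      have h2 : (12 + 6 * x + x ^ 2) ≠ 0 := by positivity
      have d1 : HasDerivAt (fun y : ℝ => 12 - 6 * y + y ^ 2) (-6 + 2 * x) x := by
        exact ((((hasDerivAt_id' x).const_mul 6).const_sub 12).add
          ((hasDerivAt_id' x).pow 2)).congr_deriv (by norm_num)
      have d2 : HasDerivAt (fun y : ℝ => 12 + 6 * y + y ^ 2) (6 + 2 * x) x := by
        exact ((((hasDerivAt_id' x).const_mul 6).const_add 12).add
          ((hasDerivAt_id' x).pow 2)).congr_deriv (by norm_num)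
      exact ((d1.log h1).sub (d2.log h2)).add (hasDerivAt_id x)
    · intro x hx
      have hx0 : 0 ≤ x := hx.1
      have h1 : 0 < (12 - 6 * x + x ^ 2) := by nlinarith [sq_nonneg (x - 3)]
      have h2 : 0 < (12 + 6 * x + x ^ 2) := by positivity
      have : (-6 + 2 * x) / (12 - 6 * x + x ^ 2) - (6 + 2 * x) / (12 + 6 * x + x ^ 2) + 1
          = x ^ 4 / ((12 - 6 * x + x ^ 2) * (12 + 6 * x + x ^ 2)) := by
        field_simp
        ring
      simp only [this]
      positivity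
  have h1 : 0 < (12 - 6 * y + y ^ 2) := by nlinarith [sq_nonneg (y - 3)]
  have h2 : 0 < (12 + 6 * y + y ^ 2) := by positivity
  rw [← Real.le_log_iff_exp_le (by positivity), Real.log_div h1.ne' h2.ne']
  linarith

/-- Pade bound (b) -/
lemma exp_le {c : ℝ} (hc : 0 ≤ c) (hc3 : c < 3) :
    Real.exp c ≤ (108 + 54 * c + 9 * c ^ 2 - c ^ 3) / (108 - 54 * c + 9 * c ^ 2 - c ^ 3) := by
  have hN : ∀ x : ℝ, 0 ≤ x → x < 3 → 0 < 108 + 54 * x + 9 * x ^ 2 - x ^ 3 := by
    intro x h0 h3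
    nlinarith [mul_nonneg (mul_nonneg h0 h0) (sub_pos.2 h3).le]
  have hQ : ∀ x : ℝ, 0 ≤ x → x < 3 → 0 < 108 - 54 * x + 9 * x ^ 2 - x ^ 3 := by
    intro x h0 h3
    have : 108 - 54 * x + 9 * x ^ 2 - x ^ 3 = (3 - x) * (36 - 6 * x + x ^ 2) := by ring
    rw [this]
    apply mul_pos (sub_pos.2 h3)
    nlinarith [sq_nonneg (x - 3)]
  have key : 0 ≤ Real.log (108 + 54 * c + 9 * c ^ 2 - c ^ 3)
      - Real.log (108 - 54 * c + 9 * c ^ 2 - c ^ 3) - c := by
    refine nonneg_of_deriv (f := fun c => Real.log (108 + 54 * c + 9 * c ^ 2 - c ^ 3)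
      - Real.log (108 - 54 * c + 9 * c ^ 2 - c ^ 3) - c)
      (f' := fun c => (54 + 18 * c - 3 * c ^ 2) / (108 + 54 * c + 9 * c ^ 2 - c ^ 3)
        - (-54 + 18 * c - 3 * c ^ 2) / (108 - 54 * c + 9 * c ^ 2 - c ^ 3) - 1)
      hc (by norm_num) ?_ ?_
    · intro x hx
      have hx0 : 0 ≤ x := hx.1
      have hx3 : x < 3 := lt_of_le_of_lt hx.2 hc3
      have d1 : HasDerivAt (fun y : ℝ => 108 + 54 * y + 9 * y ^ 2 - y ^ 3)
          (54 + 18 * x - 3 * x ^ 2) x := by
        exact (((((hasDerivAt_id' x).const_mul 54).const_add 108).add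
          (((hasDerivAt_id' x).pow 2).const_mul 9)).sub ((hasDerivAt_id' x).pow 3)).congr_deriv
          (by norm_num; ring)
      have d2 : HasDerivAt (fun y : ℝ => 108 - 54 * y + 9 * y ^ 2 - y ^ 3)
          (-54 + 18 * x - 3 * x ^ 2) x := by
        exact (((((hasDerivAt_id' x).const_mul 54).const_sub 108).add
          (((hasDerivAt_id' x).pow 2).const_mul 9)).sub ((hasDerivAt_id' x).pow 3)).congr_deriv
          (by norm_num; ring)
      exact ((d1.log (hN x hx0 hx3).ne').sub (d2.log (hQ x hx0 hx3).ne')).sub (hasDerivAt_id x)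
    · intro x hx
      have hx0 : 0 ≤ x := hx.1
      have hx3 : x < 3 := lt_of_le_of_lt hx.2 hc3
      have h1 := hN x hx0 hx3
      have h2 := hQ x hx0 hx3
      have : (54 + 18 * x - 3 * x ^ 2) / (108 + 54 * x + 9 * x ^ 2 - x ^ 3)
        - (-54 + 18 * x - 3 * x ^ 2) / (108 - 54 * x + 9 * x ^ 2 - x ^ 3) - 1
          = (x ^ 3 * (432 - 81 * x + 18 * x ^ 2 - x ^ 3)) /
            ((108 + 54 * x + 9 * x ^ 2 - x ^ 3) * (108 - 54 * x + 9 * x ^ 2 - x ^ 3)) := by
        rw [div_sub_div _ _ h1.ne' h2.ne', div_sub_one (mul_pos h1 h2).ne']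
        congr 1
        ring
      simp only [this]
      apply div_nonneg _ (mul_pos h1 h2).le
      apply mul_nonneg (by positivity)
      nlinarith [mul_nonneg (mul_nonneg hx0 hx0) (sub_pos.2 hx3).le]
  have h1 := hN c hc hc3
  have h2 := hQ c hc hc3
  rw [← Real.le_log_iff_exp_le (by positivity), Real.log_div h1.ne' h2.ne']
  linarith

/-- the key inequality for the derivative, in terms of `y = N s` -/
lemma key_ineq {y : ℝ} (hy : 0 ≤ y) :
    0 ≤ 1 - Real.exp (-y) - (Real.exp (3 * y / (3 + y)) - 1) * (9 / (3 + y) ^ 2) := by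
  have h3 : 0 < 3 + y := by linarith
  set c : ℝ := 3 * y / (3 + y) with hc
  have hc0 : 0 ≤ c := by positivity
  have hc3 : c < 3 := by
    rw [hc, div_lt_iff₀ h3]
    linarith
  have ha := exp_neg_le hy
  have hb := exp_le hc0 hc3
  have hQ : 0 < 108 - 54 * c + 9 * c ^ 2 - c ^ 3 := by
    have : 108 - 54 * c + 9 * c ^ 2 - c ^ 3 = (3 - c) * (36 - 6 * c + c ^ 2) := by ring
    rw [this]
    apply mul_pos (sub_pos.2 hc3)
    nlinarith [sq_nonneg (c - 3)]
  have hP : 0 < 12 + 6 * y + y ^ 2 := by positivity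
  have hQ2 : 108 - 54 * c + 9 * c ^ 2 - c ^ 3 = 243 * (12 + 6 * y + y ^ 2) / (3 + y) ^ 3 := by
    rw [hc]
    field_simp
    ring
  have hb' : Real.exp c - 1 ≤ 108 * c / (108 - 54 * c + 9 * c ^ 2 - c ^ 3) := by
    have : (108 + 54 * c + 9 * c ^ 2 - c ^ 3) / (108 - 54 * c + 9 * c ^ 2 - c ^ 3) - 1
        = 108 * c / (108 - 54 * c + 9 * c ^ 2 - c ^ 3) := by
      rw [div_sub_one hQ.ne']
      congr 1
      ring
    linarith
  have hb2 : (Real.exp c - 1) * (9 / (3 + y) ^ 2) ≤ 12 * y / (12 + 6 * y + y ^ 2) := by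
    calc (Real.exp c - 1) * (9 / (3 + y) ^ 2)
        ≤ 108 * c / (108 - 54 * c + 9 * c ^ 2 - c ^ 3) * (9 / (3 + y) ^ 2) := by
          apply mul_le_mul_of_nonneg_right hb' (by positivity)
      _ = 12 * y / (12 + 6 * y + y ^ 2) := by
          rw [hQ2, hc]
          field_simp
          ring
  have ha' : 12 * y / (12 + 6 * y + y ^ 2) ≤ 1 - Real.exp (-y) := by
    have : 1 - (12 - 6 * y + y ^ 2) / (12 + 6 * y + y ^ 2) = 12 * y / (12 + 6 * y + y ^ 2) := by
      field_simp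
      ring
    linarith
  linarith

lemma one_sub_pow_le (N : ℕ) {s : ℝ} (hs : s ≤ 1) : (1 - s) ^ N ≤ Real.exp (-(N * s)) := by
  have h : 1 - s ≤ Real.exp (-s) := by
    have := Real.add_one_le_exp (-s)
    linarith
  calc (1 - s) ^ N ≤ (Real.exp (-s)) ^ N := pow_le_pow_left₀ (by linarith) h N
    _ = Real.exp (-(N * s)) := by
      rw [← Real.exp_nat_mul]
      congr 1
      ring

lemma one_add_pow_le (N : ℕ) {s : ℝ} (hs : 0 ≤ s) : (1 + s) ^ N ≤ Real.exp (N * s) := by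
  have h : 1 + s ≤ Real.exp s := by
    have := Real.add_one_le_exp s
    linarith
  calc (1 + s) ^ N ≤ (Real.exp s) ^ N := pow_le_pow_left₀ (by linarith) h N
    _ = Real.exp (N * s) := by
      rw [← Real.exp_nat_mul]

/-- `F(ε) ≥ 0` -/
lemma F_nonneg (N : ℕ) {ε : ℝ} (h0 : 0 ≤ ε) (h1 : ε ≤ 1) :
    0 ≤ (1 - ε) ^ (N + 1) + (N + 1) * ε - (1 + 3 * ε / (3 + N * ε)) ^ (N + 1)
      + (N + 1) * (3 * ε / (3 + N * ε)) := by
  refine nonneg_of_deriv (f := fun s => (1 - s) ^ (N + 1) + (N + 1) * s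
      - (1 + 3 * s / (3 + N * s)) ^ (N + 1) + (N + 1) * (3 * s / (3 + N * s)))
      (f' := fun s => (N + 1) * (1 - (1 - s) ^ N
        - ((1 + 3 * s / (3 + N * s)) ^ N - 1) * (9 / (3 + N * s) ^ 2))) h0 (by simp) ?_ ?_
  · intro x hx
    have hx0 : 0 ≤ x := hx.1
    have hpos : 0 < 3 + (N : ℝ) * x := by positivity
    have dx : HasDerivAt (fun s : ℝ => 3 * s / (3 + N * s)) (9 / (3 + N * x) ^ 2) x := by
      have d1 : HasDerivAt (fun s : ℝ => 3 * s) 3 x := by
        simpa using (hasDerivAt_id x).const_mul 3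
      have d2 : HasDerivAt (fun s : ℝ => 3 + (N : ℝ) * s) (N : ℝ) x := by
        simpa using ((hasDerivAt_id x).const_mul (N : ℝ)).const_add 3
      exact (d1.div d2 hpos.ne').congr_deriv (by ring)
    have e1 : HasDerivAt (fun s : ℝ => (1 - s) ^ (N + 1)) (((N + 1 : ℕ) : ℝ) * (1 - x) ^ N * (-1)) x := by
      exact (((hasDerivAt_id' x).const_sub 1).pow (N + 1)).congr_deriv (by simp)
    have e2 : HasDerivAt (fun s : ℝ => ((N : ℝ) + 1) * s) ((N : ℝ) + 1) x := by
      simpa using (hasDerivAt_id x).const_mul ((N : ℝ) + 1)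
    have e3 : HasDerivAt (fun s : ℝ => (1 + 3 * s / (3 + N * s)) ^ (N + 1))
        (((N + 1 : ℕ) : ℝ) * (1 + 3 * x / (3 + N * x)) ^ N * (9 / (3 + N * x) ^ 2)) x := by
      exact ((dx.const_add 1).pow (N + 1)).congr_deriv (by simp)
    have e4 : HasDerivAt (fun s : ℝ => ((N : ℝ) + 1) * (3 * s / (3 + N * s)))
        (((N : ℝ) + 1) * (9 / (3 + N * x) ^ 2)) x := dx.const_mul _
    exact (((e1.add e2).sub e3).add e4).congr_deriv (by push_cast; ring)
  · intro x hx
    have hx0 : 0 ≤ x := hx.1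
    have hx1 : x ≤ 1 := hx.2.trans h1
    have hpos : 0 < 3 + (N : ℝ) * x := by positivity
    have k := key_ineq (y := N * x) (by positivity)
    have a1 := one_sub_pow_le N hx1
    have a2 := one_add_pow_le N (s := 3 * x / (3 + N * x)) (by positivity)
    have e : (N : ℝ) * (3 * x / (3 + N * x)) = 3 * (N * x) / (3 + N * x) := by ring
    rw [e] at a2
    have a3 : ((1 + 3 * x / (3 + N * x)) ^ N - 1) * (9 / (3 + N * x) ^ 2)
        ≤ (Real.exp (3 * (N * x) / (3 + N * x)) - 1) * (9 / (3 + N * x) ^ 2) := by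
      apply mul_le_mul_of_nonneg_right (by linarith) (by positivity)
    apply mul_nonneg (by positivity)
    linarith

/-- strict monotonicity of `(1+x)^n - n x` -/
lemma phi_lt (n : ℕ) (hn : 2 ≤ n) {x z : ℝ} (hx : 0 ≤ x) (hxz : x < z) :
    (1 + x) ^ n - n * x < (1 + z) ^ n - n * z := by
  induction n, hn using Nat.le_induction with
  | base =>
    push_cast
    nlinarith
  | succ n hn ih =>
    push_cast
    have h1 : 1 ≤ (1 + x) ^ n := one_le_pow₀ (by linarith)
    have hn0 : (0 : ℝ) ≤ n := Nat.cast_nonneg n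
    have e : (1 + z) ^ (n + 1) - (1 + x) ^ (n + 1)
        = (1 + z) * ((1 + z) ^ n - (1 + x) ^ n) + (z - x) * (1 + x) ^ n := by ring
    have hz : 0 < z := by linarith
    have h2 : n * (z - x) < (1 + z) ^ n - (1 + x) ^ n := by linarith
    have h3 : (1 + z) * (n * (z - x)) < (1 + z) * ((1 + z) ^ n - (1 + x) ^ n) :=
      mul_lt_mul_of_pos_left h2 (by linarith)
    have h4 : n * (z - x) ≤ (1 + z) * (n * (z - x)) := by
      have : 0 ≤ z * (n * (z - x)) := by
        apply mul_nonneg hz.le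
        apply mul_nonneg hn0
        linarith
      linarith
    have h5 : (z - x) * 1 ≤ (z - x) * (1 + x) ^ n :=
      mul_le_mul_of_nonneg_left h1 (by linarith)
    linarith

theorem main : Pool.Agent.W470.Sen.StConj := by
  intro n hn ε x hε hε1 hx h
  obtain ⟨N, rfl⟩ : ∃ N, n = N + 1 := ⟨n - 1, by omega⟩
  push_cast at h ⊢
  have hpos : 0 < 3 + (N : ℝ) * ε := by positivity
  have F := F_nonneg N hε.le hε1
  have hxs : 3 * ε / (3 + N * ε) ≤ x := by
    by_contra hlt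
    push Not at hlt
    have := phi_lt (N + 1) hn hx.le hlt
    push_cast at this
    linarith
  rw [div_le_iff₀ hpos] at hxs
  have e : (N : ℝ) + 1 - 1 = N := by ring
  rw [e]
  exact hxs

end Pool.Agent.W762.Sen.Conj
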